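import Mathlib

/-!
Depth against word length in the first Grigorchuk group: the optimal constant is one.
-/

namespace Pool.Agent.Results.MP_40d7e0_al.DepthExponentOne

/-- Names of the four generators. -/
inductive Gen
  | a | b | c | d
  deriving DecidableEq

open Gen

/-- Action of the generators on finite binary words (`false` is the letter `0`, `true` is the
letter `1`). -/
def app : Gen → List Bool → List Bool
  | _, [] => []
  | .a, false :: w => true :: w
  | .a, true :: w => false :: w
  | .b, false :: w => false :: app .a w
  | .b, true :: w => true :: app .c w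
  | .c, false :: w => false :: app .a w
  | .c, true :: w => true :: app .d w
  | .d, false :: w => false :: w
  | .d, true :: w => true :: app .b w

theorem app_nil (g : Gen) : app g [] = [] := by cases g <;> rfl

theorem app_app (g : Gen) (w : List Bool) : app g (app g w) = w := by
  induction w generalizing g with
  | nil => simp [app_nil]
  | cons x w ih => cases g <;> cases x <;> simp [app, ih]

/-- The generators as permutations of the vertex set of the tree. -/
def perm (g : Gen) : Equiv.Perm (List Bool) where
  toFun := app g
  invFun := app g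
  left_inv := app_app g
  right_inv := app_app g

/-- The first Grigorchuk group. -/
def Grig : Subgroup (Equiv.Perm (List Bool)) := Subgroup.closure (Set.range perm)

/-- The product of a word in the generators. -/
def prod (l : List Gen) : Equiv.Perm (List Bool) := (l.map perm).prod

/-- Word length with respect to `a, b, c, d`. -/
noncomputable def len (g : Equiv.Perm (List Bool)) : ℕ :=
  sInf {n | ∃ l : List Gen, l.length = n ∧ prod l = g}

/-- The levels `n` such that all sections of `g` at vertices of level `n` lie in
`{1, a, b, c, d}`. -/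
def depthSet (g : Equiv.Perm (List Bool)) : Set ℕ :=
  {n | ∀ u : List Bool, u.length = n → ∃ s : Equiv.Perm (List Bool),
    (s = 1 ∨ ∃ x, s = perm x) ∧ ∀ w, g (u ++ w) = g u ++ s w}

/-- The depth. -/
noncomputable def depth (g : Equiv.Perm (List Bool)) : ℕ := sInf (depthSet g)

/-! ### Words and sections -/

/-- Letter permutation of a generator. -/
def mv : Gen → Bool → Bool
  | .a, x => !x
  | _, x => x

/-- Section of a generator. -/
def sg : Gen → Bool → List Gen
  | .a, _ => []
  | .b, false => [a]
  | .b, true => [c]
  | .c, false => [a]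
  | .c, true => [d]
  | .d, false => []
  | .d, true => [b]

theorem perm_apply (g : Gen) (w : List Bool) : perm g w = app g w := rfl

theorem perm_cons (g : Gen) (x : Bool) (w : List Bool) :
    perm g (x :: w) = mv g x :: prod (sg g x) w := by
  cases g <;> cases x <;> simp [perm_apply, app, mv, sg, prod]

@[simp] theorem prod_nil : prod [] = 1 := rfl

@[simp] theorem prod_cons (g : Gen) (l : List Gen) : prod (g :: l) = perm g * prod l := by
  simp [prod]

@[simp] theorem prod_append (l m : List Gen) : prod (l ++ m) = prod l * prod m := by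
  simp [prod]

/-- Letter permutation of a word. -/
def mvW : List Gen → Bool → Bool
  | [], x => x
  | g :: l, x => mv g (mvW l x)

/-- Section of a word at a letter. -/
def secW : List Gen → Bool → List Gen
  | [], _ => []
  | g :: l, x => sg g (mvW l x) ++ secW l x

theorem prod_apply_cons (l : List Gen) (x : Bool) (w : List Bool) :
    prod l (x :: w) = mvW l x :: prod (secW l x) w := by
  induction l with
  | nil => rfl
  | cons g l ih =>
    rw [prod_cons, Equiv.Perm.mul_apply, ih, perm_cons]
    simp [mvW, secW]

theorem prod_apply_nil (l : List Gen) : prod l [] = [] := by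
  induction l with
  | nil => rfl
  | cons g l ih => rw [prod_cons, Equiv.Perm.mul_apply, ih, perm_apply, app_nil]

/-- Number of letters different from `a`. -/
def nonA : List Gen → ℕ
  | [] => 0
  | .a :: l => nonA l
  | _ :: l => nonA l + 1

theorem length_secW (l : List Gen) (x : Bool) : (secW l x).length ≤ nonA l := by
  induction l with
  | nil => simp [secW, nonA]
  | cons g l ih =>
    have h : (sg g (mvW l x)).length ≤ if g = a then 0 else 1 := by
      cases g <;> cases mvW l x <;> simp [sg]
    have h2 : nonA (g :: l) = nonA l + if g = a then 0 else 1 := by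
      cases g <;> simp [nonA]
    rw [secW, List.length_append, h2]
    omega

/-! ### Minimal words -/

theorem len_le (l : List Gen) : len (prod l) ≤ l.length := Nat.sInf_le ⟨l, rfl, rfl⟩

theorem exists_word {g : Equiv.Perm (List Bool)} (h : ∃ l, prod l = g) :
    ∃ l : List Gen, l.length = len g ∧ prod l = g := by
  obtain ⟨l, hl⟩ := h
  have : (len g) ∈ {n | ∃ l : List Gen, l.length = n ∧ prod l = g} :=
    Nat.sInf_mem ⟨l.length, l, rfl, hl⟩
  exact this

theorem perm_sq (g : Gen) : perm g * perm g = 1 := by
  ext1 w
  simp [perm_apply, app_app]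

theorem app_bc (w : List Bool) : app .b (app .c w) = app .d w ∧ app .c (app .b w) = app .d w ∧
    app .b (app .d w) = app .c w ∧ app .d (app .b w) = app .c w ∧
    app .c (app .d w) = app .b w ∧ app .d (app .c w) = app .b w := by
  induction w with
  | nil => simp [app_nil]
  | cons x w ih =>
    obtain ⟨h1, h2, h3, h4, h5, h6⟩ := ih
    cases x
    · simp [app, app_app]
    · simp [app, h1, h2, h3, h4, h5, h6]

/-- Two letters of `{b, c, d}` multiply to a word of length at most one. -/
theorem merge (x y : Gen) (hx : x ≠ a) (hy : y ≠ a) :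
    ∃ m : List Gen, m.length ≤ 1 ∧ perm x * perm y = prod m := by
  have k1 : perm b * perm c = perm d := by ext1 w; exact (app_bc w).1
  have k2 : perm c * perm b = perm d := by ext1 w; exact (app_bc w).2.1
  have k3 : perm b * perm d = perm c := by ext1 w; exact (app_bc w).2.2.1
  have k4 : perm d * perm b = perm c := by ext1 w; exact (app_bc w).2.2.2.1
  have k5 : perm c * perm d = perm b := by ext1 w; exact (app_bc w).2.2.2.2.1
  have k6 : perm d * perm c = perm b := by ext1 w; exact (app_bc w).2.2.2.2.2
  cases x <;> cases y
  all_goals first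
    | exact absurd rfl hx
    | exact absurd rfl hy
    | exact ⟨[], by simp, by rw [perm_sq]; rfl⟩
    | exact ⟨[b], by simp, by rw [prod_cons, prod_nil, mul_one]; first | exact k5 | exact k6⟩
    | exact ⟨[c], by simp, by rw [prod_cons, prod_nil, mul_one]; first | exact k3 | exact k4⟩
    | exact ⟨[d], by simp, by rw [prod_cons, prod_nil, mul_one]; first | exact k1 | exact k2⟩

/-- A word without two adjacent letters different from `a`. -/
def Alt : List Gen → Prop
  | [] => True
  | [_] => True
  | x :: y :: l => (x = a ∨ y = a) ∧ Alt (y :: l)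

theorem nonA_le_of_alt : ∀ l : List Gen, Alt l →
    2 * nonA l ≤ l.length + 1 ∧ ((l = [] ∨ l.head? = some a) → 2 * nonA l ≤ l.length) := by
  intro l
  induction l with
  | nil => intro _; simp [nonA]
  | cons x l ih =>
    intro h
    have hl : Alt l := by
      cases l with
      | nil => trivial
      | cons y l => exact h.2
    obtain ⟨h1, h2⟩ := ih hl
    by_cases hx : x = a
    · subst hx
      have h3 : nonA (a :: l) = nonA l := rfl
      rw [h3]
      simp only [List.length_cons]
      constructor
      · omega
      · intro _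
        omega
    · have h3 : nonA (x :: l) = nonA l + 1 := by
        cases x with
        | a => exact absurd rfl hx
        | _ => rfl
      have h4 : l = [] ∨ l.head? = some a := by
        cases l with
        | nil => left; rfl
        | cons y l =>
          right
          rcases h.1 with h | h
          · exact absurd h hx
          · simp [h]
      have h5 := h2 h4
      rw [h3]
      simp only [List.length_cons, List.head?_cons, reduceCtorEq, false_or, Option.some.injEq]
      exact ⟨by omega, fun h => absurd h hx⟩

theorem shorten_of_not_alt : ∀ l : List Gen, ¬ Alt l →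
    ∃ l' : List Gen, l'.length < l.length ∧ prod l' = prod l := by
  intro l
  induction l with
  | nil => intro h; exact absurd trivial h
  | cons x l ih =>
    intro h
    cases l with
    | nil => exact absurd trivial h
    | cons y l =>
      by_cases hl : Alt (y :: l)
      · have hxy : ¬ (x = a ∨ y = a) := fun hc => h ⟨hc, hl⟩
        push Not at hxy
        obtain ⟨m, hm, hm2⟩ := merge x y hxy.1 hxy.2
        refine ⟨m ++ l, ?_, ?_⟩
        · simp only [List.length_append, List.length_cons]
          omega
        · rw [prod_append, ← hm2, prod_cons, prod_cons, mul_assoc]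
      · obtain ⟨l', h1, h2⟩ := ih hl
        refine ⟨x :: l', ?_, ?_⟩
        · simp only [List.length_cons] at h1 ⊢
          omega
        · rw [prod_cons, h2, ← prod_cons]

/-- Contraction: sections at the first level have length at most half of the length, rounded
up. -/
theorem contraction {g : Equiv.Perm (List Bool)} (h : ∃ l, prod l = g) (x : Bool) :
    ∃ (y : Bool) (l : List Gen), 2 * l.length ≤ len g + 1 ∧ ∀ w, g (x :: w) = y :: prod l w := by
  obtain ⟨l, hl, hg⟩ := exists_word h
  have halt : Alt l := by
    by_contra hno
    obtain ⟨l', h1, h2⟩ := shorten_of_not_alt l hno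
    have h3 := len_le l'
    rw [h2, hg, ← hl] at h3
    omega
  refine ⟨mvW l x, secW l x, ?_, fun w => ?_⟩
  · have h1 := length_secW l x
    have h2 := (nonA_le_of_alt l halt).1
    rw [← hl]
    omega
  · rw [← hg]
    exact prod_apply_cons l x w

theorem mem_depthSet : ∀ (n : ℕ) (g : Equiv.Perm (List Bool)), (∃ l, prod l = g) →
    len g ≤ 2 ^ n → n ∈ depthSet g := by
  intro n
  induction n with
  | zero =>
    intro g hg hlen u hu
    obtain ⟨l, hl, hlg⟩ := exists_word hg
    have hu0 : u = [] := List.length_eq_zero_iff.1 hu
    subst hu0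
    have hnil : g [] = [] := by rw [← hlg]; exact prod_apply_nil l
    have hl1 : l.length ≤ 1 := by rw [hl]; simpa using hlen
    refine ⟨g, ?_, fun w => by rw [hnil]; rfl⟩
    match l, hl1, hlg with
    | [], _, h => left; rw [← h]; rfl
    | [x], _, h => right; exact ⟨x, by rw [← h]; simp⟩
  | succ n ih =>
    intro g hg hlen u hu
    match u, hu with
    | x :: u, hu =>
      obtain ⟨y, l, hl, hsec⟩ := contraction hg x
      have h1 : len (prod l) ≤ 2 ^ n := by
        have := len_le l
        rw [pow_succ] at hlen
        omega
      have hu' : u.length = n := by simpa using hu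
      obtain ⟨s, hs, hs2⟩ := ih (prod l) ⟨l, rfl⟩ h1 u hu'
      refine ⟨s, hs, fun w => ?_⟩
      rw [List.cons_append, hsec, hsec, hs2]
      rfl

theorem prod_reverse_mul (l : List Gen) : prod l.reverse * prod l = 1 := by
  induction l with
  | nil => rfl
  | cons g l ih =>
    rw [List.reverse_cons, prod_append, prod_cons, prod_cons, prod_nil, mul_one,
      mul_assoc, ← mul_assoc (perm g), perm_sq, one_mul, ih]

theorem exists_word_of_mem {g : Equiv.Perm (List Bool)} (hg : g ∈ Grig) :
    ∃ l : List Gen, prod l = g := by
  induction hg using Subgroup.closure_induction with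
  | mem x hx => obtain ⟨y, rfl⟩ := hx; exact ⟨[y], by simp⟩
  | one => exact ⟨[], rfl⟩
  | mul x y _ _ hx hy =>
    obtain ⟨l, rfl⟩ := hx
    obtain ⟨m, rfl⟩ := hy
    exact ⟨l ++ m, prod_append l m⟩
  | inv x _ hx =>
    obtain ⟨l, rfl⟩ := hx
    refine ⟨l.reverse, ?_⟩
    rw [eq_inv_iff_mul_eq_one]
    exact prod_reverse_mul l

theorem prod_mem (l : List Gen) : prod l ∈ Grig := by
  induction l with
  | nil => exact Grig.one_mem
  | cons g l ih =>
    rw [prod_cons]
    exact Grig.mul_mem (Subgroup.subset_closure ⟨g, rfl⟩) ih

/-! ### The substitution -/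

/-- The substitution on letters. -/
def sub : Gen → List Gen
  | .a => [a, c, a]
  | .b => [d]
  | .c => [b]
  | .d => [c]

/-- The substitution on words. -/
def subW (l : List Gen) : List Gen := l.flatMap sub

theorem subW_apply (l : List Gen) (w : List Bool) :
    prod (subW l) (true :: w) = true :: prod l w := by
  induction l with
  | nil => rfl
  | cons g l ih =>
    have h1 : subW (g :: l) = sub g ++ subW l := by simp [subW]
    rw [h1, prod_append, Equiv.Perm.mul_apply, ih, prod_cons, Equiv.Perm.mul_apply]
    cases g <;> simp [sub, perm_apply, app]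

/-- Number of letters `a`. -/
def cntA (l : List Gen) : ℕ := l.count a

theorem counts (l : List Gen) : cntA (subW l) = 2 * cntA l ∧
    (subW l).length = l.length + 2 * cntA l := by
  induction l with
  | nil => simp [subW, cntA]
  | cons g l ih =>
    have h1 : subW (g :: l) = sub g ++ subW l := by simp [subW]
    obtain ⟨i1, i2⟩ := ih
    rw [h1]
    unfold cntA at *
    rw [List.count_append, i1, List.length_append, i2]
    cases g <;> simp [sub] <;> omega

/-- The sequence of words. -/
def W : ℕ → List Gen
  | 0 => [a, b]
  | n + 1 => subW (W n)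

theorem W_counts (n : ℕ) : cntA (W n) = 2 ^ n ∧ (W n).length = 2 ^ (n + 1) := by
  induction n with
  | zero => simp [W, cntA]
  | succ n ih =>
    obtain ⟨h1, h2⟩ := counts (W n)
    have h3 : W (n + 1) = subW (W n) := rfl
    rw [h3, h1, h2, ih.1, ih.2]
    constructor
    · rw [pow_succ]; ring
    · rw [pow_succ, pow_succ]; ring

theorem small_sec {s : Equiv.Perm (List Bool)} (hs : s = 1 ∨ ∃ x, s = perm x) (v : List Bool → List Bool)
    (h : ∀ w, s (true :: w) = true :: v w) :
    ∃ t : Equiv.Perm (List Bool), (t = 1 ∨ ∃ x, t = perm x) ∧ ∀ w, v w = t w := by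
  rcases hs with rfl | ⟨x, rfl⟩
  · refine ⟨1, Or.inl rfl, fun w => ?_⟩
    have := h w
    simp only [Equiv.Perm.coe_one, id_eq, List.cons.injEq, true_and] at this
    rw [← this]
    rfl
  · cases x with
    | a =>
      have := h []
      simp [perm_apply, app] at this
    | b =>
      refine ⟨perm c, Or.inr ⟨c, rfl⟩, fun w => ?_⟩
      have := h w
      simp only [perm_apply, app, List.cons.injEq, true_and] at this
      rw [← this]; rfl
    | c =>
      refine ⟨perm d, Or.inr ⟨d, rfl⟩, fun w => ?_⟩
      have := h w
      simp only [perm_apply, app, List.cons.injEq, true_and] at this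
      rw [← this]; rfl
    | d =>
      refine ⟨perm b, Or.inr ⟨b, rfl⟩, fun w => ?_⟩
      have := h w
      simp only [perm_apply, app, List.cons.injEq, true_and] at this
      rw [← this]; rfl

theorem depth_W (n : ℕ) : ∀ m ∈ depthSet (prod (W n)), n + 1 ≤ m := by
  induction n with
  | zero =>
    intro m hm
    by_contra hlt
    have hm0 : m = 0 := by omega
    subst hm0
    obtain ⟨s, hs, hs2⟩ := hm [] rfl
    have h1 : ∀ w, prod (W 0) w = s w := by
      intro w
      have := hs2 w
      rw [prod_apply_nil] at this
      simpa using this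
    have h2 : s [true] = [false] := by rw [← h1]; simp [W, perm_apply, app]
    have h3 : s [false, false] = [true, true] := by rw [← h1]; simp [W, perm_apply, app]
    rcases hs with rfl | ⟨x, rfl⟩
    · simp at h2
    · cases x <;> simp [perm_apply, app] at h2 h3
  | succ n ih =>
    intro m hm
    have hsub : ∀ w, prod (W (n + 1)) (true :: w) = true :: prod (W n) w := subW_apply (W n)
    match m, hm with
    | 0, hm =>
      exfalso
      obtain ⟨s, hs, hs2⟩ := hm [] rfl
      have h1 : ∀ w, prod (W (n + 1)) w = s w := by
        intro w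
        have := hs2 w
        rw [prod_apply_nil] at this
        simpa using this
      obtain ⟨t, ht, ht2⟩ := small_sec hs (prod (W n)) (fun w => by rw [← h1, hsub])
      have : 0 ∈ depthSet (prod (W n)) := by
        intro u hu
        have hu0 : u = [] := List.length_eq_zero_iff.1 hu
        subst hu0
        exact ⟨t, ht, fun w => by rw [prod_apply_nil]; exact ht2 w⟩
      have := ih 0 this
      omega
    | m + 1, hm =>
      have : m ∈ depthSet (prod (W n)) := by
        intro u hu
        obtain ⟨s, hs, hs2⟩ := hm (true :: u) (by simp [hu])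
        refine ⟨s, hs, fun w => ?_⟩
        have h1 := hs2 w
        rw [List.cons_append, hsub, hsub, List.cons_append] at h1
        exact (List.cons.inj h1).2
      have := ih m this
      omega

theorem depth_W_ge (n : ℕ) : n + 1 ≤ depth (prod (W n)) := by
  have h : depth (prod (W n)) ∈ depthSet (prod (W n)) := by
    apply Nat.sInf_mem
    refine ⟨n + 1, mem_depthSet _ _ ⟨_, rfl⟩ ?_⟩
    rw [← (W_counts n).2]
    exact len_le _
  exact depth_W n _ h

theorem len_W_le (n : ℕ) : len (prod (W n)) ≤ 2 ^ (n + 1) := by
  rw [← (W_counts n).2]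
  exact len_le _

theorem W_ne_one (n : ℕ) : prod (W n) ≠ 1 := by
  intro h
  have : 0 ∈ depthSet (prod (W n)) := by
    rw [h]
    intro u _
    exact ⟨1, Or.inl rfl, fun w => rfl⟩
  have := depth_W n 0 this
  omega

theorem len_pos {g : Equiv.Perm (List Bool)} (hg : g ∈ Grig) (h1 : g ≠ 1) : 1 ≤ len g := by
  obtain ⟨l, hl, hlg⟩ := exists_word (exists_word_of_mem hg)
  rw [← hl]
  by_contra hno
  have : l = [] := List.length_eq_zero_iff.1 (by omega)
  rw [this] at hlg
  exact h1 hlg.symm

/-- Upper bound with constant one. -/
theorem depth_le {g : Equiv.Perm (List Bool)} (hg : g ∈ Grig) (h1 : g ≠ 1) :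
    (depth g : ℝ) ≤ Real.logb 2 (len g) + 1 := by
  have hpos := len_pos hg h1
  have hlog : 0 ≤ Real.logb 2 (len g) := by
    apply Real.logb_nonneg (by norm_num)
    exact_mod_cast hpos
  have hd : depth g ≤ Nat.clog 2 (len g) :=
    Nat.sInf_le (mem_depthSet _ _ (exists_word_of_mem hg) (Nat.le_pow_clog (by norm_num) _))
  by_cases h2 : len g ≤ 1
  · have h3 : Nat.clog 2 (len g) = 0 := Nat.clog_of_right_le_one h2 2
    rw [h3] at hd
    have : depth g = 0 := by omega
    rw [this]
    push_cast
    linarith
  · have h3 : 2 ^ (Nat.clog 2 (len g)).pred < len g :=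
      Nat.pow_pred_clog_lt_self (by norm_num) (by omega)
    have h4 : 0 < Nat.clog 2 (len g) := Nat.clog_pos (by norm_num) (by omega)
    have h5 : ((Nat.clog 2 (len g)).pred : ℝ) ≤ Real.logb 2 (len g) := by
      rw [Real.le_logb_iff_rpow_le (by norm_num) (by exact_mod_cast hpos), Real.rpow_natCast]
      exact_mod_cast h3.le
    have h6 : (Nat.clog 2 (len g) : ℝ) = ((Nat.clog 2 (len g)).pred : ℝ) + 1 := by
      have : Nat.clog 2 (len g) = (Nat.clog 2 (len g)).pred + 1 := by
        rw [Nat.pred_eq_sub_one]
        omega
      exact_mod_cast this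
    have h7 : (depth g : ℝ) ≤ Nat.clog 2 (len g) := by exact_mod_cast hd
    linarith

/-- The set of admissible constants. -/
def Adm : Set ℝ := {lam : ℝ | ∃ c : ℝ, ∀ g ∈ Grig, g ≠ 1 →
  (depth g : ℝ) ≤ lam * Real.logb 2 (len g) + c}

theorem adm_eq : Adm = Set.Ici 1 := by
  ext lam
  constructor
  · rintro ⟨c, hc⟩
    rw [Set.mem_Ici]
    by_contra hlt
    push Not at hlt
    -- compare along `W n`
    have key : ∀ n : ℕ, (n + 1 : ℝ) ≤ max lam 0 * (n + 1) + c := by
      intro n
      have h1 := hc (prod (W n)) (prod_mem _) (W_ne_one n)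
      have h2 : ((n + 1 : ℕ) : ℝ) ≤ depth (prod (W n)) := by exact_mod_cast depth_W_ge n
      have hpos := len_pos (prod_mem (W n)) (W_ne_one n)
      have hlog0 : 0 ≤ Real.logb 2 (len (prod (W n))) := by
        apply Real.logb_nonneg (by norm_num)
        exact_mod_cast hpos
      have hlog : Real.logb 2 (len (prod (W n))) ≤ (n + 1 : ℝ) := by
        rw [Real.logb_le_iff_le_rpow (by norm_num) (by exact_mod_cast hpos)]
        have : ((n : ℝ) + 1) = ((n + 1 : ℕ) : ℝ) := by push_cast; ring
        rw [this, Real.rpow_natCast]
        exact_mod_cast len_W_le n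
      have h3 : lam * Real.logb 2 (len (prod (W n))) ≤
          max lam 0 * Real.logb 2 (len (prod (W n))) :=
        mul_le_mul_of_nonneg_right (le_max_left _ _) hlog0
      have h4 : max lam 0 * Real.logb 2 (len (prod (W n))) ≤ max lam 0 * (n + 1) :=
        mul_le_mul_of_nonneg_left hlog (le_max_right _ _)
      push_cast at h2
      linarith
    have hmax : max lam 0 < 1 := max_lt hlt one_pos
    obtain ⟨n, hn⟩ := exists_nat_gt (c / (1 - max lam 0))
    rw [div_lt_iff₀ (by linarith)] at hn
    have := key n
    nlinarith
  · intro h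
    rw [Set.mem_Ici] at h
    refine ⟨1, fun g hg h1 => ?_⟩
    have hlog : 0 ≤ Real.logb 2 (len g) := by
      apply Real.logb_nonneg (by norm_num)
      exact_mod_cast len_pos hg h1
    have := depth_le hg h1
    nlinarith

/-- No constant smaller than one works, and the optimal constant is one. -/
theorem result :
    (¬ ∃ lam c : ℝ, lam < 1 ∧ ∀ g ∈ Grig, g ≠ 1 →
      (depth g : ℝ) ≤ lam * Real.logb 2 (len g) + c) ∧
    sInf {lam : ℝ | ∃ c : ℝ, ∀ g ∈ Grig, g ≠ 1 →
      (depth g : ℝ) ≤ lam * Real.logb 2 (len g) + c} = 1 ∧
    {lam : ℝ | ∃ c : ℝ, ∀ g ∈ Grig, g ≠ 1 →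
      (depth g : ℝ) ≤ lam * Real.logb 2 (len g) + c} = Set.Ici 1 := by
  have h : {lam : ℝ | ∃ c : ℝ, ∀ g ∈ Grig, g ≠ 1 →
      (depth g : ℝ) ≤ lam * Real.logb 2 (len g) + c} = Set.Ici 1 := adm_eq
  refine ⟨?_, ?_, h⟩
  · rintro ⟨lam, c, hlam, hc⟩
    have : lam ∈ {lam : ℝ | ∃ c : ℝ, ∀ g ∈ Grig, g ≠ 1 →
      (depth g : ℝ) ≤ lam * Real.logb 2 (len g) + c} := ⟨c, hc⟩
    rw [h, Set.mem_Ici] at this
    linarith
  · rw [h]
    exact csInf_Ici

end Pool.Agent.Results.MP_40d7e0_al.DepthExponentOne
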